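import Pool.Agent.Helper95.MW.Main

/-!
# MP_80e84b_lc: automorphisms of the Muchnik lattice preserve the continuous degrees

Every automorphism of the Muchnik lattice maps the weak degree of an almost total enumeration
degree to the weak degree of an almost total enumeration degree, and the same for the larger class
of the degrees which become total after joining them with any sufficiently independent function.
-/

set_option autoImplicit false

namespace Pool.Agent.Results.MP_80e84b_lc.ContinuousInvariant

open Pool.Agent.Helper95.MW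

/-- Let `Φ` be an automorphism of the Muchnik lattice, given on mass problems. If `A` is almost
total, then `Φ` maps the weak degree of `{h | A is c.e. in h}` to the weak degree of
`{h | B is c.e. in h}` for some almost total `B`; and the same with generically total in place of
almost total. -/
theorem result :
    ∀ Φ : Set (ℕ → ℕ) → Set (ℕ → ℕ),
      (∀ P Q : Set (ℕ → ℕ), WLE P Q ↔ WLE (Φ P) (Φ Q)) →
      (∀ C : Set (ℕ → ℕ), ∃ P : Set (ℕ → ℕ), WLE (Φ P) C ∧ WLE C (Φ P)) →
      ∀ A : Set ℕ,
        (AlmostTotal A → ∃ B : Set ℕ, AlmostTotal B ∧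
          WLE (Φ (Enu A)) (Enu B) ∧ WLE (Enu B) (Φ (Enu A))) ∧
        (GenTotal A → ∃ B : Set ℕ, GenTotal B ∧
          WLE (Φ (Enu A)) (Enu B) ∧ WLE (Enu B) (Φ (Enu A))) := by
  intro Φ h1 h2 A
  refine ⟨fun hA => ?_, fun hA => ?_⟩
  · obtain ⟨B, -, hB, h3, h4⟩ := main ⟨h1, h2⟩ (almostTotal_genTotal hA)
    exact ⟨B, hB hA, h3, h4⟩
  · obtain ⟨B, hB, -, h3, h4⟩ := main ⟨h1, h2⟩ hA
    exact ⟨B, hB, h3, h4⟩

end Pool.Agent.Results.MP_80e84b_lc.ContinuousInvariant
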